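import Mathlib
set_option autoImplicit false
open Polynomial
namespace Pool.Agent.H46.Wx

noncomputable abbrev mm (P : ℤ[X]) : ℝ := (P.map (Int.castRingHom ℂ)).mahlerMeasure

lemma pw {R : ℝ} (hR : 1 ≤ R) {x y : ℂ} (hx : ‖x‖ ≤ R) (hy : ‖y‖ ≤ R) (j : ℕ) :
    ‖x ^ j - y ^ j‖ ≤ (2 * R) ^ j * ‖x - y‖ := by
  induction j with
  | zero => simp
  | succ j ih =>
    have h1 : ‖y‖ ^ j ≤ (2 * R) ^ j := pow_le_pow_left₀ (norm_nonneg _) (by linarith) j
    calc ‖x ^ (j + 1) - y ^ (j + 1)‖ = ‖x * (x ^ j - y ^ j) + (x - y) * y ^ j‖ := by ring_nf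
      _ ≤ R * ((2 * R) ^ j * ‖x - y‖) + ‖x - y‖ * (R * (2 * R) ^ j) := by
        refine (norm_add_le _ _).trans (add_le_add ?_ ?_) <;> rw [norm_mul]
        · gcongr
        · rw [norm_pow]; gcongr; exact h1.trans (le_mul_of_one_le_left (by positivity) hR)
      _ = _ := by ring

lemma bd (N : ℕ) {R : ℝ} (hR : 1 ≤ R) : ∃ K : ℝ, 1 ≤ K ∧ ∀ P : ℤ[X], P.natDegree ≤ N →
    ∀ x y : ℂ, ‖x‖ ≤ R → ‖y‖ ≤ R → ‖aeval x P‖ ≤ K * mm P ∧
      ‖aeval x P - aeval y P‖ ≤ K * mm P * ‖x - y‖ := by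
  have hR2 : 1 ≤ 2 * R := by linarith
  refine ⟨(N + 1) * (2 ^ N * (2 * R) ^ N), one_le_mul_of_one_le_of_one_le (by simp)
    (one_le_mul_of_one_le_of_one_le (one_le_pow₀ one_le_two) (one_le_pow₀ hR2)),
    fun P hP x y hx hy => ?_⟩
  have m0 : 0 ≤ mm P := mahlerMeasure_nonneg _
  have hc : ∀ j, ‖(P.coeff j : ℂ)‖ ≤ 2 ^ N * mm P := fun j => by
    have := norm_coeff_le_choose_mul_mahlerMeasure j (P.map (Int.castRingHom ℂ))
    rw [coeff_map, eq_intCast] at this
    refine this.trans (mul_le_mul_of_nonneg_right ?_ m0)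
    exact_mod_cast (Nat.choose_le_two_pow _ _).trans
      (Nat.pow_le_pow_right two_pos (natDegree_map_le.trans hP))
  have e : ∀ z : ℂ, aeval z P = ∑ j ∈ Finset.range (N + 1), (P.coeff j : ℂ) * z ^ j := fun z => by
    rw [aeval_eq_sum_range' (Nat.lt_succ_of_le hP)]; simp
  have s : ∀ (f : ℕ → ℂ) (t : ℝ), 0 ≤ t → (∀ j, ‖f j‖ ≤ (2 * R) ^ j * t) →
      ‖∑ j ∈ Finset.range (N + 1), (P.coeff j : ℂ) * f j‖ ≤
        (N + 1) * (2 ^ N * (2 * R) ^ N) * mm P * t := fun f t ht hf => by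
    refine (norm_sum_le_of_le _ (n := fun _ => 2 ^ N * mm P * ((2 * R) ^ N * t))
      fun j hj => ?_).trans_eq (by simp; ring)
    rw [norm_mul]
    refine mul_le_mul (hc j) ((hf j).trans ?_) (norm_nonneg _) (by positivity)
    gcongr
    exact Nat.lt_succ_iff.mp (Finset.mem_range.mp hj)
  constructor
  · rw [e]
    refine (s _ 1 zero_le_one fun j => ?_).trans_eq (mul_one _)
    rw [norm_pow, mul_one]; gcongr; linarith
  · rw [e, e, ← Finset.sum_sub_distrib]
    simp_rw [← mul_sub]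
    exact s _ _ (norm_nonneg _) (pw hR hx hy)

lemma liou {M P : ℤ[X]} (hM : Irreducible M) (hd : 0 < M.natDegree) (h : ¬ M ∣ P) {N D : ℕ}
    (hP : P.natDegree ≤ N) (hD : M.natDegree ≤ D) {A T : ℝ} (hA : |(M.leadingCoeff : ℝ)| ≤ A)
    (hT : 1 ≤ T) (hr : ∀ z : ℂ, aeval z M = 0 → ‖aeval z P‖ ≤ T) {α : ℂ} (hα : aeval α M = 0) :
    1 ≤ A ^ N * T ^ D * ‖aeval α P‖ := by
  have pr : M.IsPrimitive := hM.isPrimitive hd.ne'
  have iq := (IsPrimitive.Int.irreducible_iff_irreducible_map_cast pr).mp hM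
  have co := (dvd_or_isCoprime _ (P.map (Int.castRingHom ℚ)) iq).resolve_left
    (mt (IsPrimitive.Int.dvd_iff_map_cast_dvd_map_cast M P pr).mpr h)
  have r0 : resultant M P ≠ 0 := fun e => by
    refine resultant_ne_zero _ _ co ?_
    rw [natDegree_map_eq_of_injective (RingHom.injective_int _),
      natDegree_map_eq_of_injective (RingHom.injective_int _), resultant_map_map, e, map_zero]
  have inj := RingHom.injective_int (Int.castRingHom ℂ)
  have r1 := resultant_eq_prod_eval (M.map (Int.castRingHom ℂ)) (P.map (Int.castRingHom ℂ))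
    P.natDegree natDegree_map_le (IsAlgClosed.splits _)
  rw [natDegree_map_eq_of_injective inj, resultant_map_map, leadingCoeff_map_of_injective inj] at r1
  have M0 : M.map (Int.castRingHom ℂ) ≠ 0 := (Polynomial.map_ne_zero_iff inj).mpr hM.ne_zero
  have ev : ∀ (Q : ℤ[X]) (z : ℂ), eval z (Q.map (Int.castRingHom ℂ)) = aeval z Q := fun Q z => by
    rw [← algebraMap_int_eq, eval_map_algebraMap]
  obtain ⟨s, hs⟩ := Multiset.exists_cons_of_mem ((mem_roots M0).mpr ((ev M α).trans hα))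
  have A1 : 1 ≤ |(M.leadingCoeff : ℝ)| := by
    exact_mod_cast Int.one_le_abs (leadingCoeff_ne_zero.mpr hM.ne_zero)
  have cs : s.card ≤ D := by
    have := card_roots' (M.map (Int.castRingHom ℂ))
    rw [hs, Multiset.card_cons, natDegree_map_eq_of_injective inj] at this
    omega
  have hp : ‖(s.map (P.map (Int.castRingHom ℂ)).eval).prod‖ ≤ T ^ D := by
    refine le_trans ?_ (pow_le_pow_right₀ hT cs)
    have : ∀ z ∈ s, ‖eval z (P.map (Int.castRingHom ℂ))‖ ≤ T := fun z hz => by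
      rw [ev]
      exact hr z ((ev M z).symm.trans (isRoot_of_mem_roots (hs ▸ Multiset.mem_cons_of_mem hz)))
    clear hs cs r1
    induction s using Multiset.induction_on with
    | empty => simp
    | cons a s ih =>
      rw [Multiset.map_cons, Multiset.prod_cons, norm_mul, Multiset.card_cons, pow_succ']
      exact mul_le_mul (this a (by simp)) (ih fun z hz => this z (by simp [hz])) (norm_nonneg _)
        (by linarith)
  calc (1 : ℝ) ≤ ‖(Int.castRingHom ℂ) (resultant M P)‖ := by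
        rw [eq_intCast, Complex.norm_intCast]; exact_mod_cast Int.one_le_abs r0
    _ = |(M.leadingCoeff : ℝ)| ^ P.natDegree *
        ‖(s.map (P.map (Int.castRingHom ℂ)).eval).prod‖ * ‖aeval α P‖ := by
        rw [r1, hs, Multiset.map_cons, Multiset.prod_cons, ev]
        simp only [norm_mul, norm_pow, eq_intCast, Complex.norm_intCast]; ring
    _ ≤ _ := by
        have := A1.trans hA
        gcongr ?_ * ?_ * _
        exact (pow_le_pow_right₀ A1 hP).trans (pow_le_pow_left₀ (abs_nonneg _) hA N)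

lemma low (θ : ℝ) (N D : ℕ) {v R c T : ℝ} (hv : D ≤ v) (hR : 1 ≤ R) (hθ : |θ| ≤ R) (hc : 0 < c)
    (M : ℕ → ℤ[X]) (α x y : ℕ → ℝ) (hM : ∀ i, Irreducible (M i) ∧ 0 < (M i).natDegree ∧
      (M i).natDegree ≤ D ∧ aeval (α i : ℂ) (M i) = 0 ∧ (∀ z : ℂ, aeval z (M i) = 0 → ‖z‖ ≤ R) ∧
      |((M i).leadingCoeff : ℝ)| ≤ 2 ^ x i ∧ |θ - α i| ≤ 2 ^ (T - y i) ∧
      c * mm (M i) ^ (-v) ≤ ‖aeval (θ : ℂ) (M i)‖)
    (h1 : ∀ t, ∃ i, t ≤ y i - N * x i)
    (h2 : ∀ i, N * x (i + 1) * (D + 1) ≤ (v - D) * (y i - N * x i)) (hT : 0 ≤ T) (x0 : 0 ≤ x 0) :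
    ∃ c' > 0, ∀ P : ℤ[X], P ≠ 0 → P.natDegree ≤ N → c' * mm P ^ (-v) ≤ ‖aeval (θ : ℂ) P‖ := by
  classical
  obtain ⟨K, K1, hK⟩ := bd N hR
  have D0 : (0 : ℝ) ≤ D := D.cast_nonneg
  obtain ⟨c', c0, c1, c2, c3⟩ : ∃ c' > 0, c' ≤ 1 ∧ c' ≤ c ∧
      c' ≤ 2 ^ (-(N * x 0) - (1 + T) * v - 1) * K ^ (-v) :=
    ⟨min 1 (min c _), by positivity, min_le_left _ _, (min_le_right _ _).trans (min_le_left _ _),
      (min_le_right _ _).trans (min_le_right _ _)⟩
  suffices H : ∀ d, ∀ P : ℤ[X], P ≠ 0 → P.natDegree ≤ N → P.natDegree < d →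
      c' ^ d * mm P ^ (-v) ≤ ‖aeval (θ : ℂ) P‖ from
    ⟨c' ^ (N + 1), by positivity, fun P a b => H _ P a b (by omega)⟩
  intro d
  induction d with
  | zero => omega
  | succ d ih =>
  intro P P0 hP hd
  have m1 : 1 ≤ mm P := one_le_mahlerMeasure_of_ne_zero P0
  have T1 : 1 ≤ K * mm P := one_le_mul_of_one_le_of_one_le K1 m1
  set t := Real.logb 2 (K * mm P) with ht
  have t0 : 0 ≤ t := Real.logb_nonneg one_lt_two T1
  have et : K * mm P = 2 ^ t := (Real.rpow_logb two_pos (by norm_num) (by linarith)).symm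
  obtain ⟨i, i1, i2⟩ : ∃ i, (t + 1 + T) * (D + 1) ≤ y i - N * x i ∧
      N * x i ≤ N * x 0 + (t + 1 + T) * (v - D) := by
    have ex := h1 ((t + 1 + T) * (D + 1))
    refine ⟨Nat.find ex, Nat.find_spec ex, ?_⟩
    have p : 0 ≤ (t + 1 + T) * (v - D) := mul_nonneg (by linarith) (by linarith)
    rcases e : Nat.find ex with _ | j
    · linarith
    have := not_le.mp (Nat.find_min ex (by omega : j < Nat.find ex))
    have b := (h2 j).trans (mul_le_mul_of_nonneg_left this.le (by linarith))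
    have : N * x (j + 1) ≤ (t + 1 + T) * (v - D) :=
      le_of_mul_le_mul_right (by linarith) (by linarith : (0 : ℝ) < D + 1)
    have := mul_nonneg N.cast_nonneg x0
    linarith
  obtain ⟨a1, a2, a3, a4, a5, a6, a7, a8⟩ := hM i
  by_cases dv : M i ∣ P
  · obtain ⟨Q, rfl⟩ := dv
    have Q0 := right_ne_zero_of_mul P0
    rw [natDegree_mul a1.ne_zero Q0] at hP hd
    have := ih Q Q0 (by omega) (by omega)
    rw [map_mul, norm_mul, mm, Polynomial.map_mul, mahlerMeasure_mul,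
      Real.mul_rpow (mahlerMeasure_nonneg _) (mahlerMeasure_nonneg _), pow_succ',
      mul_mul_mul_comm]
    have n0 := Real.rpow_nonneg (mahlerMeasure_nonneg (Q.map (Int.castRingHom ℂ))) (-v)
    exact mul_le_mul ((mul_le_mul_of_nonneg_right c2 (Real.rpow_nonneg
      (mahlerMeasure_nonneg _) _)).trans a8) this (by positivity) (norm_nonneg _)
  have L := liou a1 a2 dv hP a3 a6 T1 (fun z hz => (hK P hP z z (a5 z hz) (a5 z hz)).1) a4
  have U := (hK P hP θ (α i) (by simpa using hθ) (a5 _ a4)).2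
  rw [← Complex.ofReal_sub, Complex.norm_real, Real.norm_eq_abs, et] at U
  rw [et, ← Real.rpow_mul_natCast zero_le_two, ← Real.rpow_mul_natCast zero_le_two,
    ← Real.rpow_add two_pos] at L
  set s := x i * N + t * D with hs
  have L' : (2 : ℝ) ^ (-s) ≤ ‖aeval (α i : ℂ) P‖ := by
    rw [Real.rpow_neg zero_le_two, inv_le_iff_one_le_mul₀' (by positivity)]; exact L
  have U' : ‖aeval (θ : ℂ) P - aeval (α i : ℂ) P‖ ≤ 2 ^ (-s - 1) := by
    refine U.trans ((mul_le_mul_of_nonneg_left a7 (by positivity)).trans ?_)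
    rw [← Real.rpow_add two_pos]
    exact Real.rpow_le_rpow_of_exponent_le one_le_two (by nlinarith)
  have e2 : (2 : ℝ) ^ (-s) = 2 ^ (-s - 1) * 2 := by rw [Real.rpow_sub_one two_ne_zero]; ring
  have tri := norm_sub_norm_le (aeval (α i : ℂ) P) (aeval (θ : ℂ) P)
  rw [norm_sub_rev] at tri
  calc _ ≤ (2 ^ (-(N * x 0) - (1 + T) * v - 1) * K ^ (-v)) * mm P ^ (-v) := by
        gcongr
        exact (pow_le_of_le_one c0.le c1 d.succ_ne_zero).trans c3
    _ = 2 ^ (-(N * x 0) - (1 + T) * v - 1 + t * -v) := by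
        rw [mul_assoc, ← Real.mul_rpow (by linarith) (by linarith), et, Real.rpow_add two_pos,
          Real.rpow_mul zero_le_two]
    _ ≤ 2 ^ (-s - 1) := Real.rpow_le_rpow_of_exponent_le one_le_two (by nlinarith)
    _ ≤ _ := by linarith

end Pool.Agent.H46.Wx
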