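import Pool.Agent.H46.Wx.A
set_option autoImplicit false
open Polynomial
namespace Pool.Agent.H46.Wx

/-- Exponents `w` admissible for Mahler's `w_n(ξ)`; `supNorm` is the naive height. -/
def wSet (n : ℕ) (ξ : ℝ) : Set ℝ :=
  {w | 0 ≤ w ∧ {P : ℤ[X] | P.natDegree ≤ n ∧ 0 < |aeval ξ P| ∧
    |aeval ξ P| ≤ P.supNorm ^ (-w)}.Infinite}

/-- Exponents `w` admissible for Koksma's `w_n^*(ξ)`. -/
def wsSet (n : ℕ) (ξ : ℝ) : Set ℝ :=
  {w | 0 ≤ w ∧ {α : ℂ | ∃ P : ℤ[X], Irreducible P ∧ aeval α P = 0 ∧ P.natDegree ≤ n ∧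
    0 < ‖(ξ : ℂ) - α‖ ∧ ‖(ξ : ℂ) - α‖ ≤ P.supNorm ^ (-w - 1)}.Infinite}

lemma cst (θ : ℝ) (P : ℤ[X]) : ‖aeval (θ : ℂ) P‖ = |aeval θ P| := by
  rw [← Complex.coe_algebraMap, aeval_algebraMap_apply, Complex.coe_algebraMap, Complex.norm_real,
    Real.norm_eq_abs]

lemma sup1 {P : ℤ[X]} (h : P ≠ 0) : 1 ≤ P.supNorm := by
  refine le_trans ?_ (P.le_supNorm P.natDegree)
  rw [Int.norm_eq_abs]
  exact_mod_cast Int.one_le_abs (leadingCoeff_ne_zero.mpr h)

lemma mm_le {P : ℤ[X]} {N : ℕ} (h : P.natDegree ≤ N) : mm P ≤ (N + 1) * P.supNorm := by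
  refine (mahlerMeasure_le_sqrt_natDegree_add_one_mul_supNorm _).trans
    (mul_le_mul ?_ (by simp [supNorm_eq_iSup, Int.norm_eq_abs]) (supNorm_nonneg _) (by positivity))
  have : ((P.map (Int.castRingHom ℂ)).natDegree : ℝ) ≤ N := by
    exact_mod_cast natDegree_map_le.trans h
  rw [Real.sqrt_le_left (by positivity)]
  nlinarith [N.cast_nonneg (α := ℝ)]

lemma lub (θ : ℝ) {N : ℕ} (hN : 1 ≤ N) {v c T : ℝ} (hv : 0 < v) (hc : 0 < c)
    (h : ∀ P : ℤ[X], P ≠ 0 → P.natDegree ≤ N → c * mm P ^ (-v) ≤ ‖aeval (θ : ℂ) P‖)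
    (b s : ℕ → ℕ) (ρ : ℕ) (hb : StrictMono b) (hs : ∀ j, Odd (s j) ∧ s j ≤ 2 ^ (b j + ρ) ∧
      θ ≠ s j / 2 ^ b j ∧ |θ - s j / 2 ^ b j| ≤ 2 ^ (T - b j * (v + 1))) :
    IsLUB (wSet N θ) v ∧ IsLUB (wsSet N θ) v := by
  have fin : ∀ w C : ℝ, v < w → 0 < C → {P : ℤ[X] | P ≠ 0 ∧ P.natDegree ≤ N ∧
      ‖aeval (θ : ℂ) P‖ ≤ C * P.supNorm ^ (-w)}.Finite := fun w C hw hC => by
    refine (finite_mahlerMeasure_le N
      (Real.toNNReal ((C * (N + 1) ^ w / c) ^ (w - v)⁻¹))).subset fun P ⟨a1, a2, a3⟩ => ⟨a2, ?_⟩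
    have m1 : 1 ≤ mm P := one_le_mahlerMeasure_of_ne_zero a1
    have s1 := sup1 a1
    refine le_trans ?_ (Real.le_coe_toNNReal _)
    rw [Real.le_rpow_inv_iff_of_pos (by linarith) (by positivity) (by linarith), le_div_iff₀ hc]
    have e := (h P a1 a2).trans a3
    calc mm P ^ (w - v) * c = mm P ^ w * (c * mm P ^ (-v)) := by
          rw [sub_eq_add_neg, Real.rpow_add (by linarith)]; ring
      _ ≤ ((N + 1) * P.supNorm) ^ w * (C * P.supNorm ^ (-w)) := by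
          gcongr; exacts [by linarith, mm_le a2]
      _ = _ := by
          rw [Real.mul_rpow (by positivity) (by linarith), Real.rpow_neg (by linarith)]
          field_simp
  have lo : ∀ S : Set ℝ, (∀ w, 0 ≤ w → w < v → w ∈ S) → v ∈ lowerBounds (upperBounds S) :=
    fun S hS u hu => le_of_forall_lt_imp_le_of_dense fun w hw =>
      (le_max_left _ _).trans (hu (hS (max w 0) (le_max_right _ _) (max_lt hw hv)))
  set Q : ℕ → ℤ[X] := fun j => C (2 ^ b j) * X + C (-(s j : ℤ)) with hQ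
  have Qd : ∀ j, (Q j).natDegree ≤ N := fun j => le_trans (by simp only [hQ]; compute_degree) hN
  have Qi : ∀ j, Irreducible (Q j) := fun j => irreducible_C_mul_X_add_C (by positivity)
    (IsCoprime.isRelPrime (IsCoprime.neg_right (by
      exact_mod_cast Nat.isCoprime_iff_coprime.mpr
        (Nat.Coprime.pow_left (b j) (Nat.coprime_two_left.mpr (hs j).1)))))
  have Qs : ∀ j (w : ℝ), 0 ≤ w → (2 : ℝ) ^ ((b j + ρ : ℝ) * -w) ≤ (Q j).supNorm ^ (-w) :=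
    fun j w hw => by
    rw [Real.rpow_mul zero_le_two]
    refine Real.rpow_le_rpow_of_nonpos (one_pos.trans_le (sup1 (Qi j).ne_zero)) ?_ (by linarith)
    obtain ⟨i, hi⟩ := (Q j).exists_eq_supNorm
    rw [hi, Int.norm_eq_abs, ← Nat.cast_add, Real.rpow_natCast]
    have := (hs j).2.1
    have : 2 ^ b j ≤ 2 ^ (b j + ρ) := Nat.pow_le_pow_right two_pos (by omega)
    rcases i with _ | _ | i <;> simp [hQ, coeff_X, coeff_C, -map_pow, -eq_intCast, -map_neg,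
      -map_natCast] <;> assumption_mod_cast
  have big : ∀ w, w < v → ∃ J, ∀ j, ρ * (w + 1) + T ≤ b (j + J) * (v - w) := fun w hw => by
    obtain ⟨J, hJ⟩ := exists_nat_ge ((ρ * (w + 1) + T) / (v - w))
    refine ⟨J, fun j => (div_le_iff₀ (by linarith)).mp (hJ.trans ?_)⟩
    exact_mod_cast (Nat.le_add_left J j).trans (hb.id_le _)
  refine ⟨⟨fun w hw => not_lt.mp fun l => hw.2 ((fin w 1 l one_pos).subset fun P ⟨a1, a2, a3⟩ =>
    ⟨by rintro rfl; simp at a2, a1, by rwa [cst, one_mul]⟩), lo _ fun w w0 hw => ⟨w0, ?_⟩⟩,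
    fun w hw => not_lt.mp fun l => hw.2 ?_, lo _ fun w w0 hw => ⟨w0, ?_⟩⟩
  · obtain ⟨J, hJ⟩ := big w hw
    refine Set.infinite_of_injective_forall_mem (f := fun j => Q (j + J)) (fun i j e => ?_)
      fun j => ?_
    · have := congrArg (coeff · 1) e
      simp [hQ, coeff_C, -map_pow, -eq_intCast, -map_neg, -map_natCast] at this
      simpa using hb.injective this
    obtain ⟨-, -, a3, a4⟩ := hs (j + J)
    have e : aeval θ (Q (j + J)) = 2 ^ b (j + J) * (θ - s (j + J) / 2 ^ b (j + J)) := by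
      simp [hQ, map_ofNat]; field_simp; ring
    refine ⟨Qd _, by rw [e]; simp [sub_ne_zero, a3], le_trans ?_ (Qs _ w w0)⟩
    rw [e, abs_mul, abs_of_pos (by positivity)]
    refine (mul_le_mul_of_nonneg_left a4 (by positivity)).trans ?_
    rw [← Real.rpow_natCast, ← Real.rpow_add two_pos]
    exact Real.rpow_le_rpow_of_exponent_le one_le_two (by nlinarith [hJ j, ρ.cast_nonneg (α := ℝ)])
  · obtain ⟨K, K1, hK⟩ := bd N (R := |θ| + 1) (by simp)
    refine ((fin w (K * (N + 1)) l (by positivity)).biUnion (t := fun P => P.rootSet ℂ)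
      fun P _ => P.rootSet_finite ℂ).subset fun α ⟨P, a1, a2, a3, _, a5⟩ => ?_
    have s1 := sup1 a1.ne_zero
    refine Set.mem_biUnion (x := P) ⟨a1.ne_zero, a3, ?_⟩ (mem_rootSet.mpr ⟨a1.ne_zero, a2⟩)
    have n1 := a5.trans (Real.rpow_le_one_of_one_le_of_nonpos s1 (by linarith))
    have n2 := norm_sub_norm_le α (θ : ℂ)
    rw [norm_sub_rev, Complex.norm_real, Real.norm_eq_abs] at n2
    have U := (hK P a3 θ α (by simp) (by linarith)).2
    rw [a2, sub_zero] at U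
    calc _ ≤ K * ((N + 1) * P.supNorm) * P.supNorm ^ (-w - 1) := U.trans (by
          gcongr; exact mm_le a3)
      _ = _ := by rw [Real.rpow_sub_one (by linarith)]; field_simp
  · obtain ⟨J, hJ⟩ := big w hw
    refine Set.infinite_of_injective_forall_mem
      (f := fun j => (((s (j + J) : ℝ) / 2 ^ b (j + J) : ℝ) : ℂ))
      (Function.Injective.of_lt_imp_ne fun i j l e => ?_) fun j => ⟨Q (j + J), Qi _, ?_, Qd _, ?_⟩
    · rw [Complex.ofReal_inj, div_eq_div_iff (by positivity) (by positivity)] at e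
      obtain ⟨d, hd⟩ := Nat.exists_eq_add_of_lt (hb (Nat.add_lt_add_right l J))
      have e : s (i + J) * 2 ^ b (j + J) = s (j + J) * 2 ^ b (i + J) := by exact_mod_cast e
      rw [hd, add_assoc, pow_add, mul_left_comm, mul_comm, mul_left_inj' (by positivity)] at e
      exact Nat.not_even_iff_odd.mpr (hs (j + J)).1 ⟨s (i + J) * 2 ^ d, by rw [← e]; ring⟩
    · simp [hQ, map_ofNat]; field_simp; ring
    obtain ⟨-, -, a3, a4⟩ := hs (j + J)
    rw [← Complex.ofReal_sub, Complex.norm_real, Real.norm_eq_abs, ← neg_add']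
    exact ⟨by simp [sub_ne_zero, a3], a4.trans ((Real.rpow_le_rpow_of_exponent_le one_le_two
      (by nlinarith [hJ j])).trans (Qs _ _ (by linarith)))⟩

lemma dif {x y : ℝ} (hx : 1 ≤ x) (h : x ≤ y) {e : ℕ} (he : e ≠ 0) : y - x ≤ y ^ e - x ^ e := by
  obtain ⟨e, rfl⟩ := Nat.exists_eq_succ_of_ne_zero he
  have h1 := one_le_pow₀ (n := e) hx
  have h2 := pow_le_pow_left₀ (by linarith) h e
  rw [pow_succ, pow_succ]
  nlinarith [mul_nonneg (sub_nonneg.mpr h1) (sub_nonneg.mpr h),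
    mul_nonneg (sub_nonneg.mpr h2) (by linarith : 0 ≤ y)]

lemma step (a e : ℕ) (he : e ≠ 0) (x l E E' : ℝ) : ∃ (α l' : ℝ) (r : ℕ), 1 ≤ l → 0 < E' →
    64 / 2 ^ a ≤ E → E' ≤ 1 / 2 ^ a → l ≤ α ∧ α ^ e * 2 ^ a = 18 * r + 3 ∧ α + E' ≤ l' ∧
      l' ≤ α + 3 * E' ∧ l' + E' ≤ l + E ∧ x ∉ Set.Icc l' (l' + E') := by
  set r := ⌈l ^ e * 2 ^ a / 18⌉₊
  set α := ((18 * r + 3 : ℝ) / 2 ^ a) ^ (e : ℝ)⁻¹
  refine ⟨α, if x < α + 5 / 2 * E' then α + 3 * E' else α + E', r, fun hl p h1 h2 => ?_⟩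
  have e1 : α ^ e = (18 * r + 3 : ℝ) / 2 ^ a := Real.rpow_inv_natCast_pow (by positivity) he
  have r1 : l ^ e * 2 ^ a / 18 ≤ r := Nat.le_ceil _
  have r2 : (r : ℝ) < l ^ e * 2 ^ a / 18 + 1 := Nat.ceil_lt_add_one (by positivity)
  have a1 : l ≤ α := le_of_pow_le_pow_left₀ he (by positivity) (by
    rw [e1, le_div_iff₀ (by positivity)]; linarith)
  have a2 : α ^ e - l ^ e ≤ 21 * (1 / 2 ^ a) := by
    rw [e1, mul_one_div, sub_le_iff_le_add', div_le_iff₀ (by positivity), add_mul,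
      div_mul_cancel₀ _ (by positivity)]
    linarith
  have a3 := dif hl a1 he
  rw [← mul_one_div] at h1
  refine ⟨a1, by rw [e1]; field_simp, ?_⟩
  split_ifs with c
  · exact ⟨by linarith, le_rfl, by linarith, fun k => by linarith [k.1]⟩
  · exact ⟨le_rfl, by linarith, by linarith, fun k => by linarith [k.2]⟩

lemma seq (a e : ℕ → ℕ) (he : ∀ i, e i ≠ 0) (x E : ℕ → ℝ) (E0 : E 0 = 1) (h : ∀ i, 0 < E (i + 1) ∧
    64 / 2 ^ a i ≤ E i ∧ E (i + 1) ≤ 1 / 2 ^ a i) : ∃ (ξ : ℝ) (α : ℕ → ℝ) (r : ℕ → ℕ), ξ ≤ 2 ∧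
      ∀ i, 1 ≤ α i ∧ α i ^ e i * 2 ^ a i = 18 * r i + 3 ∧ E (i + 1) ≤ ξ - α i ∧
        ξ - α i ≤ 4 * E (i + 1) ∧ ξ ≠ x i := by
  choose α l' r H using fun i l => step (a i) (e i) (he i) (x i) l (E i) (E (i + 1))
  let l : ℕ → ℝ := fun i => i.rec 1 l'
  have l1 : ∀ i, 1 ≤ l i := fun i => by
    induction i with
    | zero => exact le_rfl
    | succ i ih =>
      obtain ⟨a1, -, a2, -⟩ := H i _ ih (h i).1 (h i).2.1 (h i).2.2
      exact ih.trans (a1.trans ((le_add_of_nonneg_right (h i).1.le).trans a2))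
  have G := fun i => H i _ (l1 i) (h i).1 (h i).2.1 (h i).2.2
  have mo : Monotone l := monotone_nat_of_le_succ fun i =>
    (G i).1.trans ((le_add_of_nonneg_right (h i).1.le).trans (G i).2.2.1)
  have an : Antitone fun i => l i + E i := antitone_nat_of_succ_le fun i => (G i).2.2.2.2.1
  have E1 : ∀ i, 0 ≤ E i := fun i => le_trans (by positivity) (h i).2.1
  have u : ∀ j i, l i ≤ l j + E j := fun j i => (mo (le_max_left i j)).trans
    ((le_add_of_nonneg_right (E1 _)).trans (an (le_max_right i j)))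
  have lo : ∀ i, l i ≤ iSup l := le_ciSup ⟨_, Set.forall_mem_range.mpr (u 0)⟩
  have hi : ∀ i, iSup l ≤ l i + E i := fun i => ciSup_le (u i)
  refine ⟨iSup l, fun i => α i (l i), fun i => r i (l i), (hi 0).trans_eq ?_, fun i => ?_⟩
  · rw [E0]; exact one_add_one_eq_two
  obtain ⟨a1, a2, a3, a4, -, a5⟩ := G i
  have b1 : l' i (l i) ≤ _ := lo (i + 1)
  have b2 : _ ≤ l' i (l i) + _ := hi (i + 1)
  exact ⟨(l1 i).trans a1, a2, by linarith, by linarith, fun k => a5 (k ▸ ⟨b1, b2⟩)⟩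

end Pool.Agent.H46.Wx
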