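import Pool.Agent.H46.Wx.B
set_option autoImplicit false
open Polynomial
namespace Pool.Agent.H46.Wx

lemma eis (a r : ℕ) {e : ℕ} (he : e ≠ 0) :
    Irreducible (C (2 ^ a) * X ^ e - C ((18 * r + 3 : ℕ) : ℤ) : ℤ[X]) := by
  set f : ℤ[X] := C (2 ^ a) * X ^ e - C ((18 * r + 3 : ℕ) : ℤ) with hf
  have d : f.degree = e := by rw [hf]; compute_degree!; simp [he]
  have c0 : f.coeff 0 = -(18 * r + 3) := by
    rw [hf, coeff_sub, coeff_C_mul_X_pow, if_neg he.symm, coeff_C_zero]; simp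
  have ce : f.coeff e = 2 ^ a := by
    rw [hf, coeff_sub, coeff_C_mul_X_pow, if_pos rfl, coeff_C, if_neg he, sub_zero]
  refine irreducible_of_eisenstein_criterion (P := Ideal.span {3})
    ((Ideal.span_singleton_prime (by norm_num)).mpr Int.prime_three) ?_ (fun n hn => ?_)
    (by rw [d]; exact_mod_cast Nat.pos_of_ne_zero he) ?_ fun p hp => ?_
  · rw [leadingCoeff, natDegree_eq_of_degree_eq_some d, ce, Ideal.mem_span_singleton]
    exact fun h => by simpa using Int.prime_three.dvd_of_dvd_pow h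
  · rw [d, Nat.cast_lt] at hn
    rw [Ideal.mem_span_singleton, hf, coeff_sub, coeff_C_mul_X_pow, if_neg hn.ne, coeff_C]
    split_ifs <;> omega
  · rw [Ideal.span_singleton_pow, Ideal.mem_span_singleton, c0]; omega
  · rw [C_dvd_iff_dvd_coeff] at hp
    refine (IsCoprime.pow_left (m := a) (⟨9 * r + 2, 1, by ring⟩ :
      IsCoprime (2 : ℤ) (-(18 * r + 3)))).isUnit_of_dvd' (ce ▸ hp e) (c0 ▸ hp 0)

lemma key (θ : ℝ) (N D : ℕ) {v R T : ℝ} (hv : D ≤ v) (hθ : θ ≤ R) (b f s : ℕ → ℕ) (β y : ℕ → ℝ)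
    (h : ∀ i, Irreducible (C (2 ^ b i) * X ^ f i - C (s i : ℤ) : ℤ[X]) ∧ f i ≠ 0 ∧ f i ≤ D ∧
      β i ^ f i * 2 ^ b i = s i ∧ 1 ≤ β i ∧ 2 ^ (-(b i * (v + 1))) ≤ θ - β i ∧
        θ - β i ≤ 2 ^ (T - y i))
    (h1 : ∀ t, ∃ i, t ≤ y i - N * b i)
    (h2 : ∀ i, N * b (i + 1) * (D + 1) ≤ (v - D) * (y i - N * b i)) (hT : 0 ≤ T) :
    ∃ c' > 0, ∀ P : ℤ[X], P ≠ 0 → P.natDegree ≤ N → c' * mm P ^ (-v) ≤ ‖aeval (θ : ℂ) P‖ := by
  have p : ∀ i, β i ≤ θ := fun i => sub_nonneg.mp (le_trans (by positivity) (h i).2.2.2.2.2.1)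
  have θ1 := (h 0).2.2.2.2.1.trans (p 0)
  refine low θ N D hv (θ1.trans hθ) (by rwa [abs_of_nonneg (by linarith)]) one_pos _ β
    (fun i => b i) y (fun i => ⟨(h i).1, ?_⟩) h1 h2 hT (Nat.cast_nonneg _)
  obtain ⟨-, a1, a2, a3, a4, a5, a6⟩ := h i
  set M : ℤ[X] := C (2 ^ b i) * X ^ f i - C (s i : ℤ) with hM
  have d : M.natDegree = f i := by rw [hM]; compute_degree!; simp [a1]
  have l : M.leadingCoeff = 2 ^ b i := by
    rw [leadingCoeff, d, hM, coeff_sub, coeff_C_mul_X_pow, if_pos rfl, coeff_C, if_neg a1, sub_zero]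
  have ev : ∀ z : ℂ, aeval z M = 2 ^ b i * (z ^ f i - (β i : ℂ) ^ f i) := fun z => by
    have : (β i : ℂ) ^ f i * 2 ^ b i = s i := by exact_mod_cast a3
    simp [hM, map_ofNat, ← this]; ring
  refine ⟨by omega, by omega, by simp [ev], fun z hz => ?_, by simp [l], ?_, ?_⟩
  · rw [ev, mul_eq_zero, sub_eq_zero] at hz
    have := congrArg norm (hz.resolve_left (by simp))
    rw [norm_pow, norm_pow, Complex.norm_real, Real.norm_of_nonneg (by linarith),
      pow_left_inj₀ (norm_nonneg _) (by linarith) a1] at this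
    linarith [p i]
  · rwa [abs_of_nonneg (sub_nonneg.mpr (p i))]
  have m := leadingCoeff_le_mahlerMeasure (M.map (Int.castRingHom ℂ))
  rw [leadingCoeff_map_of_injective (RingHom.injective_int _), l] at m
  have q := a5.trans (dif a4 (p i) a1)
  rw [ev, one_mul, ← Complex.ofReal_pow, ← Complex.ofReal_pow, ← Complex.ofReal_sub, norm_mul,
    Complex.norm_real]
  have D0 : (0 : ℝ) ≤ D := D.cast_nonneg
  calc _ ≤ ((2 : ℝ) ^ b i) ^ (-v) :=
        Real.rpow_le_rpow_of_nonpos (by positivity) (by simpa using m) (by linarith)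
    _ = 2 ^ b i * 2 ^ (-(b i * (v + 1))) := by
        rw [← Real.rpow_natCast, ← Real.rpow_mul zero_le_two, ← Real.rpow_add two_pos]; ring_nf
    _ ≤ _ := mul_le_mul (by simp) (q.trans (le_abs_self _)) (by positivity) (norm_nonneg _)

theorem main (n k : ℕ) (hn : 1 ≤ n) (hk : 2 ≤ k) (δ : ℝ) (hδ : 0 ≤ δ) :
    ∃ ξ w : ℝ, Transcendental ℚ ξ ∧ IsLUB (wSet (k * n) ξ) (w + δ) ∧ IsLUB (wSet n (ξ ^ k)) w ∧
      IsLUB (wsSet (k * n) ξ) (w + δ) ∧ IsLUB (wsSet n (ξ ^ k)) w := by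
  have n1 : (1 : ℝ) ≤ n := by exact_mod_cast hn
  have k2 : (2 : ℝ) ≤ k := by exact_mod_cast hk
  have kn : (k : ℝ) ≤ k * n := by nlinarith
  obtain ⟨W, W1, W2⟩ : ∃ W : ℝ, δ + 8 ≤ W ∧ 8 * (k * n) * (k + 1) ≤ W :=
    ⟨max _ _, le_max_left _ _, le_max_right _ _⟩
  have W3 : 24 * (k * n) ≤ W := by nlinarith
  set T := ⌈W + δ⌉₊ + 7
  have T1 : W + δ + 7 ≤ T := by push_cast [T]; linarith [Nat.le_ceil (W + δ)]
  have T2 : T ≤ 2 * W := by
    push_cast [T]; linarith [Nat.ceil_lt_add_one (by linarith : 0 ≤ W + δ)]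
  set a : ℕ → ℕ := fun i => T ^ (i + 1) with ha
  have as : ∀ i, (a (i + 1) : ℝ) = T * a i := fun i => by simp [ha, pow_succ']
  have am : StrictMono a := fun i j h => Nat.pow_lt_pow_right (by omega) (by omega)
  have a1 : ∀ i, (1 : ℝ) ≤ a i := fun i => by exact_mod_cast Nat.one_le_pow _ _ (by omega)
  obtain ⟨e, g, u, hu, ev, od⟩ : ∃ (e g : ℕ → ℕ) (u : ℕ → ℝ), (∀ i, e i ≠ 0 ∧ e i ≤ k ∧ g i ≤ k ∧
      e i * g i = k ∧ W + 1 ≤ u i ∧ u i ≤ W + δ + 1 ∧ u i ≤ g i * (W + 1)) ∧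
      (∀ j, e (2 * j) = 1 ∧ u (2 * j) = W + δ + 1) ∧
      ∀ j, e (2 * j + 1) = k ∧ u (2 * j + 1) = W + 1 := by
    refine ⟨fun i => if Even i then 1 else k, fun i => if Even i then k else 1,
      fun i => if Even i then W + δ + 1 else W + 1, fun i => ?_, by simp, by simp⟩
    by_cases c : Even i <;> simp only [c, if_true, if_false]
    · exact ⟨one_ne_zero, by omega, le_rfl, one_mul _, by linarith, le_rfl, by nlinarith⟩
    · exact ⟨by omega, le_rfl, by omega, mul_one _, le_rfl, by linarith, by simp⟩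
  obtain ⟨x, hx⟩ := (Algebraic.countable ℚ ℝ).exists_eq_range ⟨0, isAlgebraic_zero⟩
  obtain ⟨ξ, α, r, ξ2, H⟩ := seq a e (fun i => (hu i).1) x
    (fun i => i.casesOn 1 fun i => 2 ^ (-(a i * u i))) rfl fun i => by
      have e : ∀ m : ℕ, (2 : ℝ) ^ m / 2 ^ a i = 2 ^ (m - a i : ℝ) := fun m => by
        rw [Real.rpow_sub two_pos, Real.rpow_natCast, Real.rpow_natCast]
      refine ⟨Real.rpow_pos_of_pos two_pos _, ?_, ?_⟩
      · rw [show (64 : ℝ) = 2 ^ 6 by norm_num, e]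
        rcases i with _ | i
        · exact Real.rpow_le_one_of_one_le_of_nonpos one_le_two (by simp [ha]; omega)
        · exact Real.rpow_le_rpow_of_exponent_le one_le_two (by
            rw [as]; push_cast; nlinarith [a1 i, (hu i).2.2.2.2.2.1])
      · rw [← pow_zero (2 : ℝ), e]
        exact Real.rpow_le_rpow_of_exponent_le one_le_two (by
          push_cast; nlinarith [a1 i, (hu i).2.2.2.2.1])
  simp only at H
  have lt : ∀ i, α i < ξ := fun i => sub_pos.mp (lt_of_lt_of_le (by positivity) (H i).2.2.1)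
  have up : ∀ i, ξ - α i ≤ 2 ^ (2 - a i * u i) := fun i => (H i).2.2.2.1.trans_eq (by
    rw [sub_eq_add_neg, Real.rpow_add two_pos]; norm_num)
  have uq : ∀ i, ξ ^ k - α i ^ k ≤ 2 ^ (2 * k + 2 - a i * u i) := fun i => by
    have := pw (x := ξ) (y := α i) one_le_two (by
      rw [Complex.norm_real, Real.norm_of_nonneg] <;> linarith [(H i).1, lt i]) (by
      rw [Complex.norm_real, Real.norm_of_nonneg] <;> linarith [(H i).1, lt i]) k
    rw [← Complex.ofReal_pow, ← Complex.ofReal_pow, ← Complex.ofReal_sub, ← Complex.ofReal_sub,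
      Complex.norm_real, Complex.norm_real, Real.norm_of_nonneg (sub_pos.mpr (lt i)).le] at this
    refine (le_abs_self _).trans (this.trans ((mul_le_mul_of_nonneg_left (up i)
      (by positivity)).trans_eq ?_))
    rw [add_sub_assoc, Real.rpow_add two_pos, Real.rpow_mul_natCast zero_le_two]; norm_num
  have lq := fun i => (H i).2.2.1.trans (dif (H i).1 (lt i).le (by omega : k ≠ 0))
  have un : ∀ t : ℝ, ∃ i, t ≤ a i := fun t => by
    obtain ⟨i, hi⟩ := exists_nat_ge t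
    exact ⟨i, hi.trans (by exact_mod_cast am.id_le i)⟩
  have gk : ∀ i, (g i : ℝ) ≤ k := fun i => by exact_mod_cast (hu i).2.2.1
  have od' : ∀ i, Odd (18 * r i + 3) := fun i => ⟨9 * r i + 1, by ring⟩
  have Y : ∀ i, a i * (W / 2) ≤ a i * u i - k * n * a i := fun i => by
    nlinarith [mul_le_mul_of_nonneg_left (hu i).2.2.2.2.1 (zero_le_one.trans (a1 i)), a1 i]
  have Z : ∀ i, k * n * (a (i + 1) : ℝ) * (k + 1) ≤ W / 2 * (a i * (W / 2)) := fun i => by
    rw [as]
    calc _ = (k * n * (k + 1)) * T * (a i : ℝ) := by ring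
      _ ≤ W / 8 * (2 * W) * a i := by gcongr <;> linarith
      _ = _ := by ring
  have Y' : ∀ i, a i * (W / 2) ≤ a i * u i - n * (a i * g i : ℕ) := fun i => (Y i).trans (by
    push_cast; nlinarith [mul_le_mul_of_nonneg_left (gk i) (by positivity : (0 : ℝ) ≤ n * a i)])
  obtain ⟨c, c0, hc⟩ := key ξ (k * n) k (v := W + δ) (T := 2) (by linarith) ξ2 a e
    (fun i => 18 * r i + 3) α (fun i => a i * u i) (fun i => ⟨eis _ _ (hu i).1, (hu i).1,
      (hu i).2.1, by exact_mod_cast (H i).2.1, (H i).1, le_trans (Real.rpow_le_rpow_of_exponent_le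
        one_le_two (by nlinarith [a1 i, (hu i).2.2.2.2.2.1])) (H i).2.2.1, up i⟩)
    (fun t => (un t).imp fun i hi => by push_cast; nlinarith [Y i, a1 i])
    (fun i => by
      push_cast
      exact (Z i).trans (mul_le_mul (by linarith) (Y i) (by nlinarith [a1 i]) (by linarith)))
    zero_le_two
  obtain ⟨c', c0', hc'⟩ := key (ξ ^ k) n 1 (v := W) (T := 2 * k + 2) (by push_cast; linarith)
    le_rfl (fun i => a i * g i) (fun _ => 1) (fun i => (18 * r i + 3) ^ g i) (fun i => α i ^ k)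
    (fun i => a i * u i) (fun i => ⟨by
        rw [pow_one, sub_eq_add_neg, ← C_neg]
        exact irreducible_C_mul_X_add_C (by positivity) (IsCoprime.isRelPrime (IsCoprime.neg_right
          (by exact_mod_cast Nat.isCoprime_iff_coprime.mpr (Nat.Coprime.pow_left _
            (Nat.coprime_two_left.mpr (od' i).pow))))), one_ne_zero, le_rfl, by
        push_cast
        rw [← (H i).2.1, ← (hu i).2.2.2.1]; ring, one_le_pow₀ (H i).1,
      le_trans (Real.rpow_le_rpow_of_exponent_le one_le_two (by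
        push_cast; nlinarith [a1 i, (hu i).2.2.2.2.2.2])) (lq i), uq i⟩)
    (fun t => (un t).imp fun i hi => by nlinarith [Y' i, a1 i])
    (fun i => by
      refine le_trans ?_ ((Z i).trans (mul_le_mul (by push_cast; linarith) (Y' i)
        (by nlinarith [a1 i]) (by push_cast; linarith)))
      push_cast
      calc _ = g (i + 1) * n * (a (i + 1) : ℝ) * (1 + 1) := by ring
        _ ≤ _ := by gcongr; exacts [(hu _).2.2.1, by linarith])
    (by positivity)
  have sb : ∀ i, α i ^ e i = (18 * r i + 3 : ℕ) / 2 ^ a i ∧ 18 * r i + 3 ≤ 2 ^ (a i + k) :=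
    fun i => ⟨by rw [eq_div_iff (by positivity), (H i).2.1]; push_cast; rfl, by
      have : α i ^ e i ≤ 2 ^ k := (pow_le_pow_left₀ (by linarith [(H i).1])
        ((lt i).le.trans ξ2) _).trans (pow_le_pow_right₀ one_le_two (hu i).2.1)
      have h2 : (18 * r i + 3 : ℝ) ≤ 2 ^ (a i + k) := by
        rw [← (H i).2.1, pow_add, mul_comm]; gcongr
      exact_mod_cast h2⟩
  have A := lub ξ (N := k * n) (T := 2) (Nat.mul_pos (by omega) hn) (by linarith) c0 hc
    (fun j => a (2 * j)) (fun j => 18 * r (2 * j) + 3) k (fun i j h => am (by omega)) fun j => by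
      rw [← (sb _).1, (ev j).1, pow_one, abs_of_pos (sub_pos.mpr (lt _)), ← (ev j).2]
      exact ⟨od' _, (sb _).2, (lt _).ne', up _⟩
  have B := lub (ξ ^ k) (T := 2 * k + 2) hn (by linarith) c0' hc' (fun j => a (2 * j + 1))
    (fun j => 18 * r (2 * j + 1) + 3) k (fun i j h => am (by omega)) fun j => by
      have : 0 < ξ ^ k - α (2 * j + 1) ^ k := lt_of_lt_of_le (by positivity) (lq _)
      rw [← (sb _).1, (od j).1, abs_of_pos this, ← (od j).2]
      exact ⟨od' _, (sb _).2, (sub_pos.mp this).ne', uq _⟩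
  refine ⟨ξ, W, fun h => ?_, A.1, B.1, A.2, B.2⟩
  obtain ⟨i, hi⟩ : ξ ∈ Set.range x := hx ▸ h
  exact (H i).2.2.2.2 hi.symm

end Pool.Agent.H46.Wx
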